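import Pool.Agent.H56.QC.Defs

/-! Area formula with multiplicities for a `C^1` map (MP_1fd04d_an, module M3). -/

set_option autoImplicit false

namespace Pool.Agent.H56.QC

open MeasureTheory Set Filter Topology Metric
open scoped RealInnerProductSpace ENNReal

variable {n : ℕ}

theorem smooth_locinj (F : E n → E n) (hF : ContDiff ℝ 1 F) (x : E n)
    (hd : (fderiv ℝ F x).det ≠ 0) : ∃ U : Set (E n), IsOpen U ∧ x ∈ U ∧ InjOn F U := by
  have hs : HasStrictFDerivAt F
      ((ContinuousLinearMap.toContinuousLinearEquivOfDetNeZero (fderiv ℝ F x) hd : E n ≃L[ℝ] E n) :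
        E n →L[ℝ] E n) x := by
    rw [ContinuousLinearMap.coe_toContinuousLinearEquivOfDetNeZero]
    exact hF.contDiffAt.hasStrictFDerivAt (by norm_num)
  refine ⟨(hs.toOpenPartialHomeomorph F).source, (hs.toOpenPartialHomeomorph F).open_source,
    hs.mem_toOpenPartialHomeomorph_source, ?_⟩
  have h := (hs.toOpenPartialHomeomorph F).injOn
  rwa [hs.toOpenPartialHomeomorph_coe] at h

theorem smooth_partition (F : E n → E n) (hF : ContDiff ℝ 1 F) :
    ∃ A : ℕ → Set (E n), (∀ i, MeasurableSet (A i)) ∧ Pairwise (Function.onFun Disjoint A) ∧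
      (∀ i, InjOn F (A i)) ∧ {x | (fderiv ℝ F x).det ≠ 0} ⊆ ⋃ i, A i := by
  classical
  let C : Set (Set (E n)) := insert ∅ {b | b ∈ TopologicalSpace.countableBasis (E n) ∧ InjOn F b}
  have hCc : C.Countable :=
    Set.Countable.insert _ ((TopologicalSpace.countable_countableBasis (E n)).mono
      (fun b hb => hb.1))
  obtain ⟨f, hf⟩ := hCc.exists_eq_range ⟨∅, Set.mem_insert _ _⟩
  have hfi : ∀ i, f i ∈ C := fun i => hf ▸ Set.mem_range_self i
  refine ⟨disjointed f, ?_, disjoint_disjointed f, ?_, ?_⟩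
  · intro i
    apply MeasurableSet.disjointed
    intro j
    rcases hfi j with h | h
    · rw [h]; exact MeasurableSet.empty
    · exact ((TopologicalSpace.isBasis_countableBasis (E n)).isOpen h.1).measurableSet
  · intro i
    have : InjOn F (f i) := by
      rcases hfi i with h | h
      · rw [h]; exact Set.injOn_empty F
      · exact h.2
    exact this.mono (disjointed_subset f i)
  · intro x hx
    rw [iUnion_disjointed]
    obtain ⟨U, hU, hxU, hinj⟩ := smooth_locinj F hF x hx
    obtain ⟨b, hb, hxb, hbU⟩ :=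
      (TopologicalSpace.isBasis_countableBasis (E n)).exists_subset_of_mem_open hxU hU
    have hbC : b ∈ C := Set.mem_insert_of_mem _ ⟨hb, hinj.mono hbU⟩
    rw [hf] at hbC
    obtain ⟨i, hi⟩ := hbC
    exact Set.mem_iUnion.2 ⟨i, hi ▸ hxb⟩

/-- The area formula with multiplicities. -/
theorem smooth_area (F : E n → E n) (hF : ContDiff ℝ 1 F) (s : Set (E n)) (hs : MeasurableSet s)
    (hd : ∀ x ∈ s, (fderiv ℝ F x).det ≠ 0) :
    ∫⁻ x in s, ENNReal.ofReal |(fderiv ℝ F x).det| =
      ∫⁻ y, Measure.count (s ∩ F ⁻¹' {y}) := by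
  obtain ⟨A, hAm, hAd, hAi, hAc⟩ := smooth_partition F hF
  have hdiff : ∀ x, HasFDerivAt F (fderiv ℝ F x) x := fun x =>
    (hF.differentiable (by norm_num) x).hasFDerivAt
  have hsA : s = ⋃ i, s ∩ A i := by
    rw [← Set.inter_iUnion]
    exact (Set.inter_eq_left.2 (fun x hx => hAc (hd x hx))).symm
  have hdis : Pairwise (Function.onFun Disjoint (fun i => s ∩ A i)) := by
    intro i j hij
    exact (hAd hij).mono Set.inter_subset_right Set.inter_subset_right
  have hm : ∀ i, MeasurableSet (s ∩ A i) := fun i => hs.inter (hAm i)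
  have himg : ∀ i, MeasurableSet (F '' (s ∩ A i)) := fun i =>
    measurable_image_of_fderivWithin (hm i) (fun x _ => (hdiff x).hasFDerivWithinAt)
      ((hAi i).mono Set.inter_subset_right)
  have h1 : ∫⁻ x in s, ENNReal.ofReal |(fderiv ℝ F x).det| =
      ∑' i, volume (F '' (s ∩ A i)) := by
    conv_lhs => rw [hsA]
    rw [lintegral_iUnion hm hdis]
    congr 1
    funext i
    exact lintegral_abs_det_fderiv_eq_addHaar_image volume (hm i)
      (fun x _ => (hdiff x).hasFDerivWithinAt) ((hAi i).mono Set.inter_subset_right)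
  have h2 : ∀ y, Measure.count (s ∩ F ⁻¹' {y}) =
      ∑' i, (F '' (s ∩ A i)).indicator (1 : E n → ℝ≥0∞) y := by
    intro y
    have hy : MeasurableSet (F ⁻¹' {y}) :=
      (isClosed_singleton.preimage hF.continuous).measurableSet
    have e : s ∩ F ⁻¹' {y} = ⋃ i, (s ∩ A i) ∩ F ⁻¹' {y} := by
      rw [← Set.iUnion_inter, ← hsA]
    rw [e, measure_iUnion]
    · congr 1
      funext i
      by_cases hyi : y ∈ F '' (s ∩ A i)
      · obtain ⟨x, hx, hxy⟩ := hyi
        have : (s ∩ A i) ∩ F ⁻¹' {y} = {x} := by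
          ext z
          constructor
          · rintro ⟨hz, hzy⟩
            exact hAi i hz.2 hx.2 (by rw [hxy]; exact hzy)
          · rintro rfl
            exact ⟨hx, hxy⟩
        rw [this, Measure.count_singleton,
          Set.indicator_of_mem (show y ∈ F '' (s ∩ A i) from ⟨x, hx, hxy⟩)]
        rfl
      · have : (s ∩ A i) ∩ F ⁻¹' {y} = ∅ := by
          ext z
          constructor
          · rintro ⟨hz, hzy⟩
            exact (hyi ⟨z, hz, hzy⟩).elim
          · intro hz
            exact hz.elim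
        rw [this, measure_empty, Set.indicator_of_notMem hyi]
    · intro i j hij
      exact (hdis hij).mono Set.inter_subset_left Set.inter_subset_left
    · intro i
      exact (hm i).inter hy
  rw [h1]
  simp_rw [h2]
  rw [lintegral_tsum (fun i => (measurable_one.indicator (himg i)).aemeasurable)]
  congr 1
  funext i
  rw [lintegral_indicator_one (himg i)]

/-- the critical values form a null set -/
theorem smooth_sard (F : E n → E n) (hF : ContDiff ℝ 1 F) :
    ∀ᵐ y ∂(volume : Measure (E n)), ∀ x, F x = y → (fderiv ℝ F x).det ≠ 0 := by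
  have h0 : volume (F '' {x | (fderiv ℝ F x).det = 0}) = 0 :=
    addHaar_image_eq_zero_of_det_fderivWithin_eq_zero volume
      (fun x _ => ((hF.differentiable (by norm_num) x).hasFDerivAt).hasFDerivWithinAt)
      (fun x hx => hx)
  filter_upwards [measure_eq_zero_iff_ae_notMem.1 h0] with y hy x hxy hdet
  exact hy ⟨x, hdet, hxy⟩

/-- the second derivative of a function of class `C^2` is symmetric -/
theorem smooth_sym (w : E n → ℝ) (F : E n → E n) (hw : ∀ x, HasGradientAt w (F x) x)
    (hF : ContDiff ℝ 1 F) (x : E n) : Sym (fderiv ℝ F x) := by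
  intro v u
  have h1 : ∀ y, HasFDerivAt w (innerSL ℝ (F y)) y := fun y => (hw y).hasFDerivAt
  have h2 : HasFDerivAt (fun y => innerSL ℝ (F y)) ((innerSL ℝ).comp (fderiv ℝ F x)) x :=
    (innerSL ℝ).hasFDerivAt.comp x ((hF.differentiable (by norm_num) x).hasFDerivAt)
  have h3 := second_derivative_symmetric h1 h2 v u
  have e1 : ((innerSL ℝ).comp (fderiv ℝ F x)) v u = ⟪fderiv ℝ F x v, u⟫ := rfl
  have e2 : ((innerSL ℝ).comp (fderiv ℝ F x)) u v = ⟪fderiv ℝ F x u, v⟫ := rfl
  rw [e1, e2] at h3
  rw [h3, real_inner_comm]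

end Pool.Agent.H56.QC
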