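import Pool.Agent.H25.QC.Area
import Pool.Agent.H56.QC.Morse
import Pool.Agent.H20.QC.Theta

/-! The level inequality for `C^2` functions (MP_1fd04d_an, module M3). -/

set_option autoImplicit false

namespace Pool.Agent.H56.QC

open MeasureTheory Set Filter Topology Metric
open scoped RealInnerProductSpace ENNReal

variable {n : ℕ}

theorem smooth_grad (w : E n → ℝ) (F : E n → E n) (hw : ∀ x, HasGradientAt w (F x) x) (y : E n)
    (x : E n) : HasGradientAt (fun x => w x - ⟪y, x⟫) (F x - y) x := by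
  rw [hasGradientAt_iff_hasFDerivAt, map_sub]
  exact (hw x).hasFDerivAt.sub (innerSL ℝ y).hasFDerivAt

theorem smooth_fderiv_sub (F : E n → E n) (y x : E n) :
    fderiv ℝ (fun x => F x - y) x = fderiv ℝ F x := fderiv_sub_const y

theorem smooth_finite (F : E n → E n) (hF : ContDiff ℝ 1 F) (k : ℝ) (hk : k ≠ 0)
    (R : ℝ) (hout : ∀ x, R ≤ ‖x‖ → F x = k • x) (y : E n)
    (hy : ∀ x, F x = y → (fderiv ℝ F x).det ≠ 0) : {x | F x = y}.Finite := by
  have hcl : IsClosed {x | F x = y} := isClosed_eq hF.continuous continuous_const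
  have hsub : {x | F x = y} ⊆ closedBall (0 : E n) (max R ‖k⁻¹ • y‖) := by
    intro x hx
    rw [mem_closedBall_zero_iff]
    rcases le_or_gt R ‖x‖ with h | h
    · have h1 : k • x = y := by rw [← hout x h]; exact hx
      have h2 : x = k⁻¹ • y := by rw [← h1, smul_smul, inv_mul_cancel₀ hk, one_smul]
      rw [h2]
      exact le_max_right _ _
    · exact h.le.trans (le_max_left _ _)
  have hcomp : IsCompact {x | F x = y} := (isCompact_closedBall _ _).of_isClosed_subset hcl hsub
  choose! U hUo hxU hUi using fun x (hx : F x = y) => smooth_locinj F hF x (hy x hx)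
  obtain ⟨t, ht, htU⟩ := hcomp.elim_nhds_subcover U (fun x hx => (hUo x hx).mem_nhds (hxU x hx))
  refine t.finite_toSet.subset ?_
  intro x hx
  obtain ⟨z, hz, hxz⟩ := Set.mem_iUnion₂.1 (htU hx)
  have hzy : F z = y := ht z hz
  have : x = z := hUi z hzy hxz (hxU z hzy) (by rw [hzy]; exact hx)
  rw [this]
  exact hz

theorem smooth_growth (w : E n → ℝ) (F : E n → E n) (hw : ∀ x, HasGradientAt w (F x) x)
    (hF : Continuous F) (k : ℝ) (hk : 0 < k) (R : ℝ) (hout : ∀ x, R ≤ ‖x‖ → F x = k • x)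
    (y : E n) : Tendsto (fun x => w x - ⟪y, x⟫) (cocompact (E n)) atTop := by
  obtain ⟨B, hB⟩ := (isCompact_closedBall (0 : E n) R).exists_bound_of_continuousOn
    (f := fun x => F x - k • x) (by fun_prop)
  have hB' : ∀ x, ‖F x - k • x‖ ≤ max B 0 := by
    intro x
    rcases le_or_gt R ‖x‖ with h | h
    · rw [hout x h, sub_self, norm_zero]
      exact le_max_right _ _
    · exact (hB x (by rw [mem_closedBall_zero_iff]; exact h.le)).trans (le_max_left _ _)
  have hder : ∀ x, HasFDerivAt (fun x => w x - k / 2 * ‖x‖ ^ 2) (innerSL ℝ (F x - k • x)) x := by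
    intro x
    have h1 : HasFDerivAt w (innerSL ℝ (F x)) x := (hw x).hasFDerivAt
    have h2 : HasFDerivAt (fun x : E n => k / 2 * ‖x‖ ^ 2) ((k / 2) • (2 • innerSL ℝ x)) x :=
      ((hasStrictFDerivAt_norm_sq x).hasFDerivAt).const_mul (k / 2)
    have e : innerSL ℝ (F x - k • x) = innerSL ℝ (F x) - (k / 2) • (2 • innerSL ℝ x) := by
      ext v
      simp
      ring
    rw [e]
    exact h1.sub h2
  have hmv : ∀ x, |(w x - k / 2 * ‖x‖ ^ 2) - (w 0 - k / 2 * ‖(0 : E n)‖ ^ 2)| ≤
      max B 0 * ‖x - 0‖ := by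
    intro x
    refine Convex.norm_image_sub_le_of_norm_hasFDerivWithin_le (s := univ)
      (f := fun x => w x - k / 2 * ‖x‖ ^ 2)
      (f' := fun x => innerSL ℝ (F x - k • x)) (fun x _ => (hder x).hasFDerivWithinAt) ?_
      convex_univ (mem_univ _) (mem_univ _)
    intro x _
    rw [innerSL_apply_norm]
    exact hB' x
  have hlow : ∀ x, w 0 + ‖x‖ * (k / 2 * ‖x‖ - (max B 0 + ‖y‖)) ≤ w x - ⟪y, x⟫ := by
    intro x
    have h1 := (abs_le.1 (hmv x)).1
    have h2 := real_inner_le_norm y x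
    simp only [norm_zero, sub_zero] at h1
    nlinarith
  refine tendsto_atTop_mono hlow ?_
  have h4 : Tendsto (fun t : ℝ => w 0 + t * (k / 2 * t - (max B 0 + ‖y‖))) atTop atTop := by
    refine tendsto_atTop_add_const_left _ _ ?_
    refine tendsto_id.atTop_mul_atTop₀ ?_
    simp_rw [sub_eq_add_neg]
    refine tendsto_atTop_add_const_right _ _ ?_
    exact tendsto_id.const_mul_atTop (by positivity)
  exact h4.comp (tendsto_norm_cocompact_atTop (E := E n))

theorem smooth_growth_neg (w : E n → ℝ) (F : E n → E n) (hw : ∀ x, HasGradientAt w (F x) x)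
    (hF : Continuous F) (k : ℝ) (hk : k < 0) (R : ℝ) (hout : ∀ x, R ≤ ‖x‖ → F x = k • x)
    (y : E n) : Tendsto (fun x => w x - ⟪y, x⟫) (cocompact (E n)) atBot := by
  have h := smooth_growth (fun x => - w x) (fun x => - F x)
    (fun x => by
      rw [hasGradientAt_iff_hasFDerivAt, map_neg]
      exact (hw x).hasFDerivAt.neg) hF.neg (-k) (by linarith) R
    (fun x hx => by rw [hout x hx, neg_smul]) (-y)
  rw [← tendsto_neg_atTop_iff]
  refine h.congr ?_
  intro x
  rw [inner_neg_left]
  ring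

theorem smooth_outer (F : E n → E n) (k : ℝ) (R : ℝ) (hout : ∀ x, R ≤ ‖x‖ → F x = k • x)
    (x : E n) (hx : R < ‖x‖) : fderiv ℝ F x = k • I n := by
  have h1 : F =ᶠ[𝓝 x] fun z => k • z := by
    have : {z : E n | R < ‖z‖} ∈ 𝓝 x := (isOpen_lt continuous_const continuous_norm).mem_nhds hx
    filter_upwards [this] with z hz
    exact hout z (le_of_lt hz)
  rw [h1.fderiv_eq]
  exact (k • I n).hasFDerivAt.fderiv

theorem smooth_pos0 (k : ℝ) (hk : 0 < k) : Pos0 (k • I n) := by
  intro v hv
  have : ⟪(k • I n) v, v⟫ = k * ‖v‖ ^ 2 := by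
    simp [inner_smul_left]
  rw [this]
  have := norm_pos_iff.2 hv
  positivity

theorem smooth_not_pos1 (hn : 2 ≤ n) (k : ℝ) (hk : k < 0) : ¬ Pos1 (k • I n) := by
  rintro ⟨e, he⟩
  have key : ∃ v : E n, v ≠ 0 ∧ ⟪e, v⟫ = 0 := by
    let i : Fin n := ⟨0, by omega⟩
    let j : Fin n := ⟨1, by omega⟩
    have hij : j ≠ i := by
      intro h
      have := congrArg Fin.val h
      simp [i, j] at this
    by_cases h : e i = 0
    · refine ⟨EuclideanSpace.single i 1, ?_, ?_⟩
      · intro h0
        have := congrArg (fun v : E n => v i) h0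
        simp at this
      · simp [EuclideanSpace.inner_single_right, h]
    · refine ⟨e j • EuclideanSpace.single i 1 - e i • EuclideanSpace.single j 1, ?_, ?_⟩
      · intro h0
        have := congrArg (fun v : E n => v j) h0
        simp [hij] at this
        exact h this
      · simp [inner_sub_right, inner_smul_right, EuclideanSpace.inner_single_right]
        ring
  obtain ⟨v, hv, hev⟩ := key
  have h1 := he v hv hev
  have : ⟪(k • I n) v, v⟫ = k * ‖v‖ ^ 2 := by
    simp [inner_smul_left]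
  rw [this] at h1
  have := norm_pos_iff.2 hv
  nlinarith [sq_nonneg ‖v‖]

theorem smooth_count (s : Set (E n)) (hs : s.Finite) : Measure.count s = (s.ncard : ℝ≥0∞) := by
  rw [Measure.count_apply_finite s hs, Set.ncard_eq_toFinset_card s hs]

/-- the counting inequality at a regular value -/
theorem smooth_counting (hn : 2 ≤ n) (w : E n → ℝ) (F : E n → E n)
    (hw : ∀ x, HasGradientAt w (F x) x) (hF : ContDiff ℝ 1 F) (k : ℝ) (hk : k ≠ 0)
    (R : ℝ) (hout : ∀ x, R ≤ ‖x‖ → F x = k • x) (y : E n)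
    (hy : ∀ x, F x = y → (fderiv ℝ F x).det ≠ 0) (hyR : ‖y‖ ≠ |k| * R) :
    Measure.count ({x | x ∈ ball (0 : E n) R ∧ Pos0 (fderiv ℝ F x)} ∩ F ⁻¹' {y}) ≤
      Measure.count ({x | x ∈ ball (0 : E n) R ∧ Pos1 (fderiv ℝ F x) ∧
        (fderiv ℝ F x).det < 0} ∩ F ⁻¹' {y}) +
      (ball (0 : E n) (max k 0 * R)).indicator 1 y := by
  have hfin : {x | F x = y}.Finite := smooth_finite F hF k hk R hout y hy
  have hfin' : {x | F x - y = 0}.Finite := by
    simpa only [sub_eq_zero] using hfin
  have hF' : ContDiff ℝ 1 (fun x => F x - y) := hF.sub contDiff_const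
  have hd' : ∀ x, F x - y = 0 → (fderiv ℝ (fun x => F x - y) x).det ≠ 0 := by
    intro x hx
    rw [smooth_fderiv_sub]
    exact hy x (sub_eq_zero.1 hx)
  have hPs : {x | x ∈ ball (0 : E n) R ∧ Pos0 (fderiv ℝ F x)} ∩ F ⁻¹' {y} ⊆
      {x | F x - y = 0 ∧ Pos0 (fderiv ℝ (fun x => F x - y) x)} := by
    rintro x ⟨⟨_, hx1⟩, hx2⟩
    refine ⟨sub_eq_zero.2 hx2, ?_⟩
    rw [smooth_fderiv_sub]
    exact hx1
  have hPyfin : {x | F x - y = 0 ∧ Pos0 (fderiv ℝ (fun x => F x - y) x)}.Finite :=
    hfin'.subset (fun x hx => hx.1)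
  have hQfin : ({x | x ∈ ball (0 : E n) R ∧ Pos1 (fderiv ℝ F x) ∧
        (fderiv ℝ F x).det < 0} ∩ F ⁻¹' {y}).Finite := hfin.subset (fun x hx => hx.2)
  have hPfin := hPyfin.subset hPs
  have hQs : {x | F x - y = 0 ∧ Pos1 (fderiv ℝ (fun x => F x - y) x) ∧
      ¬ Pos0 (fderiv ℝ (fun x => F x - y) x)} ⊆
      {x | x ∈ ball (0 : E n) R ∧ Pos1 (fderiv ℝ F x) ∧
        (fderiv ℝ F x).det < 0} ∩ F ⁻¹' {y} := by
    rintro x ⟨hx0, hx1, hx2⟩
    rw [smooth_fderiv_sub] at hx1 hx2
    have hxy : F x = y := sub_eq_zero.1 hx0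
    have hdet := hy x hxy
    refine ⟨⟨?_, hx1, ?_⟩, hxy⟩
    · rw [mem_ball_zero_iff]
      by_contra hcon
      push Not at hcon
      rcases hcon.lt_or_eq with h | h
      · have hD := smooth_outer F k R hout x h
        rw [hD] at hx1 hx2
        rcases lt_or_gt_of_ne hk with hk' | hk'
        · exact smooth_not_pos1 hn k hk' hx1
        · exact hx2 (smooth_pos0 k hk')
      · apply hyR
        rw [← hxy, hout x h.le, norm_smul, ← h, Real.norm_eq_abs]
    · have := (det_pos_iff _ (smooth_sym w F hw hF x) hx1 hdet).not.2 hx2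
      exact lt_of_le_of_ne (not_lt.1 this) hdet
  have hQle := Set.ncard_le_ncard hQs hQfin
  have hPle := Set.ncard_le_ncard hPs hPyfin
  rw [smooth_count _ hPfin, smooth_count _ hQfin]
  rcases lt_or_gt_of_ne hk with hk' | hk'
  · have hm := morse_minus hn (fun x => w x - ⟪y, x⟫) (fun x => F x - y) (smooth_grad w F hw y)
      hF' hfin' hd' (smooth_growth_neg w F hw hF.continuous k hk' R hout y)
    have : ({x | x ∈ ball (0 : E n) R ∧ Pos0 (fderiv ℝ F x)} ∩ F ⁻¹' {y}).ncard ≤
      ({x | x ∈ ball (0 : E n) R ∧ Pos1 (fderiv ℝ F x) ∧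
        (fderiv ℝ F x).det < 0} ∩ F ⁻¹' {y}).ncard := hPle.trans (hm.trans hQle)
    exact le_add_right (by exact_mod_cast this)
  · have hm := morse_plus hn (fun x => w x - ⟪y, x⟫) (fun x => F x - y) (smooth_grad w F hw y)
      hF' hfin' hd' (smooth_growth w F hw hF.continuous k hk' R hout y)
    rcases lt_or_ge ‖y‖ (k * R) with h | h
    · have hyb : y ∈ ball (0 : E n) (max k 0 * R) := by
        rw [mem_ball_zero_iff, max_eq_left hk'.le]
        exact h
      rw [Set.indicator_of_mem hyb]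
      have : ({x | x ∈ ball (0 : E n) R ∧ Pos0 (fderiv ℝ F x)} ∩ F ⁻¹' {y}).ncard ≤
        ({x | x ∈ ball (0 : E n) R ∧ Pos1 (fderiv ℝ F x) ∧
          (fderiv ℝ F x).det < 0} ∩ F ⁻¹' {y}).ncard + 1 :=
        hPle.trans (hm.trans (Nat.add_le_add_right hQle 1))
      rw [Pi.one_apply]
      exact_mod_cast this
    · have h' : k * R < ‖y‖ := by
        refine lt_of_le_of_ne h ?_
        intro h0
        apply hyR
        rw [abs_of_pos hk', h0]
      set x₀ : E n := k⁻¹ • y with hx₀
      have hx₀n : R < ‖x₀‖ := by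
        rw [hx₀, norm_smul, Real.norm_eq_abs, abs_of_pos (inv_pos.2 hk'), inv_mul_eq_div,
          lt_div_iff₀ hk', mul_comm]
        exact h'
      have hx₀P : x₀ ∈ {x | F x - y = 0 ∧ Pos0 (fderiv ℝ (fun x => F x - y) x)} := by
        refine ⟨?_, ?_⟩
        · rw [hout x₀ hx₀n.le, hx₀, smul_smul, mul_inv_cancel₀ hk, one_smul, sub_self]
        · rw [smooth_fderiv_sub, smooth_outer F k R hout x₀ hx₀n]
          exact smooth_pos0 k hk'
      have hx₀n' : x₀ ∉ {x | x ∈ ball (0 : E n) R ∧ Pos0 (fderiv ℝ F x)} ∩ F ⁻¹' {y} := by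
        rintro ⟨⟨hb, _⟩, _⟩
        rw [mem_ball_zero_iff] at hb
        linarith
      have hins := Set.ncard_insert_of_notMem hx₀n' hPfin
      have hle2 := Set.ncard_le_ncard (Set.insert_subset hx₀P hPs) hPyfin
      have : ({x | x ∈ ball (0 : E n) R ∧ Pos0 (fderiv ℝ F x)} ∩ F ⁻¹' {y}).ncard ≤
        ({x | x ∈ ball (0 : E n) R ∧ Pos1 (fderiv ℝ F x) ∧
          (fderiv ℝ F x).det < 0} ∩ F ⁻¹' {y}).ncard := by omega
      exact le_add_right (by exact_mod_cast this)

theorem mp_smooth (hn : 2 ≤ n) (w : E n → ℝ) (F : E n → E n)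
    (hw : ∀ x, HasGradientAt w (F x) x) (hF : ContDiff ℝ 1 F) (k : ℝ) (hk : k ≠ 0)
    (R : ℝ) (hR : 0 < R) (hout : ∀ x, R ≤ ‖x‖ → F x = k • x) :
    ∫ x in ball (0 : E n) R, Theta (fderiv ℝ F x) ≤
      (max k 0) ^ n * volume.real (ball (0 : E n) R) := by
  classical
  have hDc : Continuous (fun x => fderiv ℝ F x) := hF.continuous_fderiv (by norm_num)
  have hdc : Continuous (fun x => (fderiv ℝ F x).det) :=
    ContinuousLinearMap.continuous_det.comp hDc
  set P : Set (E n) := {x | x ∈ ball (0 : E n) R ∧ Pos0 (fderiv ℝ F x)} with hP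
  set Q : Set (E n) := {x | x ∈ ball (0 : E n) R ∧ Pos1 (fderiv ℝ F x) ∧
    (fderiv ℝ F x).det < 0} with hQ
  have hPo : IsOpen P := isOpen_ball.inter (isOpen_pos0.preimage hDc)
  have hQo : IsOpen Q :=
    isOpen_ball.inter ((isOpen_pos1.preimage hDc).inter (isOpen_lt hdc continuous_const))
  have hPb : P ⊆ ball 0 R := fun x hx => hx.1
  have hQb : Q ⊆ ball 0 R := fun x hx => hx.1
  have hPd : ∀ x ∈ P, 0 < (fderiv ℝ F x).det := fun x hx =>
    det_pos_of_pos0 _ (smooth_sym w F hw hF x) hx.2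
  have hPQ : Disjoint P Q := by
    rw [Set.disjoint_left]
    intro x hx hx'
    exact absurd (hPd x hx) (not_lt.2 hx'.2.2.le)
  have hle : ∫⁻ x in P, ENNReal.ofReal |(fderiv ℝ F x).det| ≤
      (∫⁻ x in Q, ENNReal.ofReal |(fderiv ℝ F x).det|) + volume (ball (0 : E n) (max k 0 * R)) := by
    rw [smooth_area F hF P hPo.measurableSet (fun x hx => (hPd x hx).ne'),
      smooth_area F hF Q hQo.measurableSet (fun x hx => hx.2.2.ne),
      ← lintegral_indicator_one measurableSet_ball,
      ← lintegral_add_right _ (measurable_one.indicator measurableSet_ball)]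
    apply lintegral_mono_ae
    have hsph : ∀ᵐ y ∂(volume : Measure (E n)), ‖y‖ ≠ |k| * R := by
      have : Nontrivial (E n) := by
        have : Nonempty (Fin n) := ⟨⟨0, by omega⟩⟩
        infer_instance
      have h0 : volume (sphere (0 : E n) (|k| * R)) = 0 := Measure.addHaar_sphere _ _ _
      filter_upwards [measure_eq_zero_iff_ae_notMem.1 h0] with y hy hcon
      exact hy (by rw [mem_sphere_zero_iff_norm]; exact hcon)
    filter_upwards [smooth_sard F hF, hsph] with y hy hyR
    exact smooth_counting hn w F hw hF k hk R hout y hy hyR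
  have hint : IntegrableOn (fun x => (fderiv ℝ F x).det) (ball 0 R) :=
    (hdc.continuousOn.integrableOn_compact (isCompact_closedBall (0 : E n) R)).mono_set
      ball_subset_closedBall
  have hTheta : ∀ x ∈ ball (0 : E n) R, Theta (fderiv ℝ F x) =
      P.indicator (fun x => (fderiv ℝ F x).det) x + Q.indicator (fun x => (fderiv ℝ F x).det) x := by
    intro x hx
    have hsym := smooth_sym w F hw hF x
    by_cases h1 : Pos1 (fderiv ℝ F x)
    · have ht : Theta (fderiv ℝ F x) = (fderiv ℝ F x).det := if_pos h1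
      rw [ht]
      rcases lt_trichotomy (fderiv ℝ F x).det 0 with hd | hd | hd
      · have hxQ : x ∈ Q := ⟨hx, h1, hd⟩
        have hxP : x ∉ P := fun h => (Set.disjoint_left.1 hPQ h hxQ)
        rw [Set.indicator_of_mem hxQ, Set.indicator_of_notMem hxP, zero_add]
      · have hxP : x ∉ P := fun h => (hPd x h).ne' hd
        have hxQ : x ∉ Q := fun h => h.2.2.ne hd
        rw [Set.indicator_of_notMem hxQ, Set.indicator_of_notMem hxP, hd, zero_add]
      · have hxP : x ∈ P := ⟨hx, (det_pos_iff _ hsym h1 hd.ne').1 hd⟩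
        have hxQ : x ∉ Q := fun h => (Set.disjoint_left.1 hPQ hxP h)
        rw [Set.indicator_of_mem hxP, Set.indicator_of_notMem hxQ, add_zero]
    · have ht : Theta (fderiv ℝ F x) = 0 := if_neg h1
      have hxP : x ∉ P := fun h => h1 ⟨0, fun v hv _ => h.2 v hv⟩
      have hxQ : x ∉ Q := fun h => h1 h.2.1
      rw [ht, Set.indicator_of_notMem hxQ, Set.indicator_of_notMem hxP, zero_add]
  have hI : ∫ x in ball (0 : E n) R, Theta (fderiv ℝ F x) =
      (∫ x in P, (fderiv ℝ F x).det) + ∫ x in Q, (fderiv ℝ F x).det := by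
    rw [setIntegral_congr_fun measurableSet_ball hTheta, integral_add
      ((hint.indicator hPo.measurableSet)) ((hint.indicator hQo.measurableSet)),
      setIntegral_indicator hPo.measurableSet, setIntegral_indicator hQo.measurableSet,
      Set.inter_eq_right.2 hPb, Set.inter_eq_right.2 hQb]
  have hPi : ∫ x in P, (fderiv ℝ F x).det =
      (∫⁻ x in P, ENNReal.ofReal |(fderiv ℝ F x).det|).toReal := by
    rw [integral_eq_lintegral_of_nonneg_ae]
    · congr 1
      apply setLIntegral_congr_fun hPo.measurableSet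
      intro x hx
      simp only
      rw [abs_of_pos (hPd x hx)]
    · exact (ae_restrict_mem hPo.measurableSet).mono (fun x hx => (hPd x hx).le)
    · exact hdc.aestronglyMeasurable
  have hQi : ∫ x in Q, (fderiv ℝ F x).det =
      - (∫⁻ x in Q, ENNReal.ofReal |(fderiv ℝ F x).det|).toReal := by
    rw [← neg_eq_iff_eq_neg, ← integral_neg, integral_eq_lintegral_of_nonneg_ae]
    · congr 1
      apply setLIntegral_congr_fun hQo.measurableSet
      intro x hx
      simp only
      rw [abs_of_neg hx.2.2]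
    · exact (ae_restrict_mem hQo.measurableSet).mono (fun x hx => by
        have := hx.2.2
        simp only [Pi.zero_apply]
        linarith)
    · exact hdc.neg.aestronglyMeasurable
  have hQfin : (∫⁻ x in Q, ENNReal.ofReal |(fderiv ℝ F x).det|) ≠ ∞ := by
    have := (hint.mono_set hQb).norm.lintegral_lt_top
    simpa [Real.norm_eq_abs] using this.ne
  have hbfin : volume (ball (0 : E n) (max k 0 * R)) ≠ ∞ := measure_ball_lt_top.ne
  have hfinal := ENNReal.toReal_mono (ENNReal.add_ne_top.2 ⟨hQfin, hbfin⟩) hle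
  rw [ENNReal.toReal_add hQfin hbfin] at hfinal
  have hvol : (volume (ball (0 : E n) (max k 0 * R))).toReal =
      (max k 0) ^ n * volume.real (ball (0 : E n) R) := by
    have : Nontrivial (E n) := by
      have : Nonempty (Fin n) := ⟨⟨0, by omega⟩⟩
      infer_instance
    rw [Measure.addHaar_ball_mul volume (0 : E n) (le_max_right k 0) R, ENNReal.toReal_mul,
      ENNReal.toReal_ofReal (by positivity), finrank_euclideanSpace_fin]
    rfl
  rw [hI, hPi, hQi, ← hvol]
  linarith

end Pool.Agent.H56.QC
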